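import Pool.Agent.Lib.MP_bbe012_lc.XS.D8

/-!
# One algorithm for 100 percent of the supports in any family, with input of exponential size

A family of supports (`Sup`) is given by a number `n` of variables and finitely many non zero polynomials `g_j(θ, x)` in parameters `θ_1, ..., θ_s` and
`x_1, ..., x_n`. At a rational point `θ` it stands for all explicit integrals in `n` variables such that the denominator and all polynomials in the inequalities are constants times products of
powers of the `g_j(θ, x)` (`ItemN`); the numerator, the orders of the poles, the signs in the inequalities are arbitrary, the domain may be unbounded and may touch the poles as long as the integral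
converges absolutely.

For every finite list `F` of such families there is one algorithm `f`, which takes as input a polynomial expression in periods presented by explicit integrals, never errs, and, for 100 percent of the
points `θ`, halts on all the expressions over `θ` of bounded degree whose size is at most the exponential of a power of the height of `θ` (`InN` with `T` replaced by `eT k T`, `k > 0`), that is, it decides all the equalities between
polynomial expressions in the periods supported on the `g_j(θ, x)`. So the numbers in the input may have exponentially more digits than `θ`. Here 100 percent has every natural meaning: of the rational points of height at most `T`; of the integer points `|θ_i| ≤ T`, if the `g_j(θ, x)` are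
homogeneous in `θ` (`Homog`); of the points of the lattice `∏ (1 / D_i) ℤ` in a box, for all `T ≤ D_i ≤ exp (T ^ k)`. For example the `g_j` can be all polynomials of degree at most `d`, with their coefficients as the parameters `θ`: then they are linear
in `θ`, and `f` decides everything over 100 percent of the `r`-tuples of integer polynomials of degree at most `d` with coefficients at most `T` in absolute value.

The proof. Regularisation by complex powers, Bernstein's theory of holonomic modules over the Weyl algebra with parameters: outside a hypersurface of special `θ` every integral is a combination of the values at `θ` of finitely many fixed functions `V_i`, real analytic in `θ`, with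
coefficients of controlled height, and this has a certificate, verified by exact polynomial arithmetic. The algebraic relations over `ℚ(θ)` between the `V_i` are finitely many polynomials `R`, known to the algorithm. A
relation between the values `V_i(θ)` which is not a consequence of the relations `R` would be a linear relation with integer coefficients, at most `exp (T ^ k)` in absolute value, between the values at `θ` of functions which are linearly independent over `ℚ(θ)`. The functions `V_i` satisfy
linear differential equations with coefficients in `ℚ(θ)`; so a non zero linear form in the `V_i` with integer coefficients, whatever they are, is not too small near a generic point (independent derivatives, uniformly over all linear forms), and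
the determinant method applies to its zeros with constants which depend on the logarithm of the coefficients only: the points `θ` are few, among the rational points of bounded height and in every translate of a lattice.
-/

namespace Pool.Agent.Results.MP_bbe012_lc.AlmostAllSupports

open MvPolynomial MeasureTheory Set Filter Topology Pool.Agent.Lib.MP_bbe012_lc
open Pool.Agent.Lib.MP_bbe012_lc.PP Pool.Agent.Lib.MP_bbe012_lc.PG Pool.Agent.Lib.MP_bbe012_lc.PM Pool.Agent.Lib.MP_bbe012_lc.PN
open Pool.Agent.Lib.MP_bbe012_lc.PL Pool.Agent.Lib.MP_bbe012_lc.XS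

/-- There are rational points of height at most `T`, and only finitely many of them. -/
theorem heights_pos (s : ℕ) {T : ℕ} (hT : 1 ≤ T) : 0 < ({θ : Fin s → ℚ | ∀ i, HLE T (θ i)}.ncard) := by
  have hfin : {θ : Fin s → ℚ | ∀ i, HLE T (θ i)}.Finite :=
    (Set.Finite.pi' (fun _ : Fin s => finite_HLE T)).subset fun θ h i => h i
  rw [Set.ncard_pos hfin]
  refine ⟨0, fun i => ?_⟩
  simp [HLE, hT]

/-- A subset of a set of density zero, among the points of bounded height. -/
theorem heights_sub {s : ℕ} {U U' : ℕ → Set (Fin s → ℚ)} (hU : ∀ T, 1 ≤ T → U T ⊆ U' T)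
    (h : Tendsto (fun T : ℕ => ({θ ∈ U' T | ∀ i, HLE T (θ i)}.ncard : ℝ) / ({θ : Fin s → ℚ | ∀ i, HLE T (θ i)}.ncard : ℝ))
      atTop (𝓝 0)) :
    Tendsto (fun T : ℕ => ({θ ∈ U T | ∀ i, HLE T (θ i)}.ncard : ℝ) / ({θ : Fin s → ℚ | ∀ i, HLE T (θ i)}.ncard : ℝ))
      atTop (𝓝 0) := by
  refine squeeze_zero' (Eventually.of_forall fun T => by positivity) ?_ h
  filter_upwards [eventually_ge_atTop 1] with T hT
  have hfin : {θ : Fin s → ℚ | ∀ i, HLE T (θ i)}.Finite :=
    (Set.Finite.pi' (fun _ : Fin s => finite_HLE T)).subset fun θ h i => h i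
  refine div_le_div_of_nonneg_right (Nat.cast_le.2 (Set.ncard_le_ncard ?_ (hfin.subset fun θ h => h.2))) (Nat.cast_nonneg _)
  rintro θ ⟨h1, h2⟩
  exact ⟨hU T hT h1, h2⟩

/-- A subset of a set of density zero, among the integer points. -/
theorem ints_sub {s : ℕ} {U U' : ℕ → Set (Fin s → ℚ)} (hU : ∀ T, 1 ≤ T → U T ⊆ U' T)
    (h : Tendsto (fun T : ℕ => ({c : Fin s → ℤ | (∀ i, |c i| ≤ T) ∧ (fun i => (c i : ℚ)) ∈ U' T}.ncard : ℝ) /
      (2 * (T : ℝ) + 1) ^ s) atTop (𝓝 0)) :
    Tendsto (fun T : ℕ => ({c : Fin s → ℤ | (∀ i, |c i| ≤ T) ∧ (fun i => (c i : ℚ)) ∈ U T}.ncard : ℝ) /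
      (2 * (T : ℝ) + 1) ^ s) atTop (𝓝 0) := by
  refine squeeze_zero' (Eventually.of_forall fun T => by positivity) ?_ h
  filter_upwards [eventually_ge_atTop 1] with T hT
  have hfin : {c : Fin s → ℤ | ∀ i, |c i| ≤ T}.Finite := by
    refine (Set.Finite.pi' fun _ : Fin s => Set.finite_Icc (-(T : ℤ)) T).subset fun c h i => ?_
    exact abs_le.1 (h i)
  refine div_le_div_of_nonneg_right (Nat.cast_le.2 (Set.ncard_le_ncard ?_ (hfin.subset fun c h => h.1))) (by positivity)
  rintro c ⟨h1, h2⟩
  exact ⟨h1, hU T hT h2⟩

/-- For every finite list of families of supports there is one algorithm which never errs when it is asked whether a polynomial expression in periods vanishes, which halts when it does not vanish, and which, for 100 percent of the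
points `θ`, halts on all the expressions over `θ` of degree at most `A` and of size at most `exp (T ^ k)`, where `k > 0` depends on `A`: for 100 percent of the rational points of height at most `T`; of the integer points, `|θ_i| ≤ T`, if the families are homogeneous in `θ`; of the points of every lattice `∏ (1 / D_i) ℤ`, `T ≤ D_i ≤ exp (T ^ k)`, in a box. In a
compact set which avoids the hypersurface `z = 0` the exceptional points are fewer by a power `T ^ η`, with `η` independent of the compact set. -/
theorem result {s μ : ℕ} (F : Fin μ → Sup s) :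
    ∃ (f : PCode × List PeriodCode →. Bool) (z : MvPolynomial (Fin s) ℚ), Partrec f ∧ z ≠ 0 ∧
      (∀ x, (∀ X ∈ x.2, PeriodAdmissible X) → ∀ b ∈ f x, (b = true ↔ Vanishes x)) ∧
      (∀ x, (∀ X ∈ x.2, PeriodAdmissible X) → ¬ Vanishes x → (f x).Dom) ∧
      (∀ A T x, (∀ θ, InN F A T θ x) → (f x).Dom) ∧
      ∀ A : ℕ, ∃ k η : ℝ, 0 < k ∧ 0 < η ∧
        Tendsto (fun T : ℕ => ({θ ∈ Undecided F f A (eT k T) | ∀ i, HLE T (θ i)}.ncard : ℝ) /
          ({θ : Fin s → ℚ | ∀ i, HLE T (θ i)}.ncard : ℝ)) atTop (𝓝 0) ∧
        (Homog F → Tendsto (fun T : ℕ =>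
          ({c : Fin s → ℤ | (∀ i, |c i| ≤ T) ∧ (fun i => (c i : ℚ)) ∈ Undecided F f A (eT k T)}.ncard : ℝ) / (2 * (T : ℝ) + 1) ^ s)
          atTop (𝓝 0)) ∧
        (∀ (R : ℕ) (ε : ℝ), 0 < ε → ∃ T₀ : ℕ, ∀ T : ℕ, T₀ ≤ T → ∀ D : Fin s → ℕ, (∀ i, T ≤ D i ∧ D i ≤ eT k T) →
          ({θ ∈ Undecided F f A (eT k T) | InLattice D θ ∧ ∀ i, |(θ i : ℝ)| ≤ R}.ncard : ℝ) ≤ ε * ∏ i, (D i : ℝ)) ∧
        ∀ S : Set (Fin s → ℝ), IsCompact S → (∀ θ ∈ S, aeval θ z ≠ 0) → ∃ C : ℝ, 0 < C ∧ ∀ T : ℕ, 1 ≤ T →
          ({θ ∈ Undecided F f A (eT k T) | (∀ i, HLE T (θ i)) ∧ cst θ ∈ S}.ncard : ℝ) ≤ C * (T : ℝ) ^ (2 * (s : ℝ) - η) ∧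
          ∀ D : Fin s → ℕ, (∀ i, T ≤ D i ∧ D i ≤ eT k T) →
            ({θ ∈ Undecided F f A (eT k T) | InLattice D θ ∧ cst θ ∈ S}.ncard : ℝ) ≤ C * (T : ℝ) ^ (-η) * ∏ i, (D i : ℝ) := by
  classical
  obtain ⟨f, z, h1, hz, h2, h3, h4⟩ := targetE F
  refine ⟨f, z, h1, hz, h2, h3, fun A T x hx => ?_, fun A => ?_⟩
  · obtain ⟨k, η, hk, -, ht, -⟩ := h4 A
    obtain ⟨u, hu⟩ := pow_le_eT hk 1
    by_contra hd
    have hev : ∀ᶠ T' : ℕ in atTop, (1 : ℝ) ≤
        ({θ ∈ Undecided F f A (eT k T') | ∀ i, HLE T' (θ i)}.ncard : ℝ) / ({θ : Fin s → ℚ | ∀ i, HLE T' (θ i)}.ncard : ℝ) := by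
      filter_upwards [eventually_ge_atTop (max u (max T 1))] with T' hT'
      have g1 : 1 ≤ T' := (le_trans (le_max_right _ _) (le_max_right _ _)).trans hT'
      have g2 : T ≤ T' := (le_trans (le_max_left _ _) (le_max_right _ _)).trans hT'
      have g3 : T' ≤ eT k T' := by
        have := hu T' ((le_max_left _ _).trans hT')
        rwa [pow_one] at this
      have e : {θ ∈ Undecided F f A (eT k T') | ∀ i, HLE T' (θ i)} = {θ : Fin s → ℚ | ∀ i, HLE T' (θ i)} := by
        ext θ
        refine ⟨fun h => h.2, fun h => ⟨⟨x, InN.mono (g1.trans g3) (g2.trans g3) (hx θ), hd⟩, h⟩⟩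
      rw [e, div_self]
      exact_mod_cast (heights_pos s g1).ne'
    have := ht.eventually (gt_mem_nhds (show (0 : ℝ) < 1 by norm_num))
    obtain ⟨T', ha, hb⟩ := (hev.and this).exists
    exact absurd (lt_of_le_of_lt ha hb) (lt_irrefl _)
  · obtain ⟨k, η, hk, hη, ht, hl, hS⟩ := h4 A
    obtain ⟨k', hk', hi⟩ : ∃ k' : ℝ, 0 < k' ∧ (Homog F → Tendsto (fun T : ℕ =>
        ({c : Fin s → ℤ | (∀ i, |c i| ≤ T) ∧ (fun i => (c i : ℚ)) ∈ Undecided F f A (eT k' T)}.ncard : ℝ) /
          (2 * (T : ℝ) + 1) ^ s) atTop (𝓝 0)) := by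
      by_cases hF : Homog F
      · obtain ⟨k', hk', h⟩ := int_pointsE (f := f) hF (fun A => by
          obtain ⟨k, η, hk, -, -, hl, -⟩ := h4 A
          exact ⟨k, hk, hl⟩) A
        exact ⟨k', hk', fun _ => h⟩
      · exact ⟨1, one_pos, fun h => absurd h hF⟩
    have hm : ∀ T, 1 ≤ T → eT (min k k') T ≤ eT k T := fun T hT => eT_mono (min_le_left _ _) hT
    have hm' : ∀ T, 1 ≤ T → eT (min k k') T ≤ eT k' T := fun T hT => eT_mono (min_le_right _ _) hT
    have hu : ∀ T, 1 ≤ T → Undecided F f A (eT (min k k') T) ⊆ Undecided F f A (eT k T) := fun T hT =>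
      und_mono f A (hm T hT) (one_le_two.trans (two_le_eT hk hT))
    have hu' : ∀ T, 1 ≤ T → Undecided F f A (eT (min k k') T) ⊆ Undecided F f A (eT k' T) := fun T hT =>
      und_mono f A (hm' T hT) (one_le_two.trans (two_le_eT hk' hT))
    refine ⟨min k k', η, lt_min hk hk', hη, ?_, fun hF => ?_, fun R ε hε => ?_, fun S hSc hSz => ?_⟩
    · exact heights_sub (U := fun T => Undecided F f A (eT (min k k') T)) hu ht
    · exact ints_sub (U := fun T => Undecided F f A (eT (min k k') T)) hu' (hi hF)
    · obtain ⟨T₀, hT₀⟩ := hl R ε hε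
      refine ⟨max T₀ 1, fun T hT D hD => ?_⟩
      have g1 : 1 ≤ T := (le_max_right _ _).trans hT
      refine le_trans ?_ (hT₀ T ((le_max_left _ _).trans hT) D fun i => ⟨(hD i).1, (hD i).2.trans (hm T g1)⟩)
      refine Nat.cast_le.2 (Set.ncard_le_ncard ?_ ((lat_triv R (D := D) fun i => g1.trans (hD i).1).1.subset fun θ h => h.2))
      rintro θ ⟨h5, h6⟩
      exact ⟨hu T g1 h5, h6⟩
    · obtain ⟨C, hC, H₁, H₂⟩ := hS S hSc hSz
      obtain ⟨R₁, hR₁⟩ := hSc.isBounded.exists_norm_le
      obtain ⟨R₀, hR₀⟩ := exists_nat_ge R₁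
      refine ⟨C, hC, fun T hT => ⟨?_, fun D hD => ?_⟩⟩
      · refine le_trans (Nat.cast_le.2 (Set.ncard_le_ncard ?_ ?_)) (H₁ T hT)
        · rintro θ ⟨h5, h6⟩
          exact ⟨hu T hT h5, h6⟩
        · exact (Set.Finite.pi' (fun _ : Fin s => finite_HLE T)).subset fun θ h i => h.2.1 i
      · refine le_trans (Nat.cast_le.2 (Set.ncard_le_ncard ?_ ?_)) (H₂ T hT D fun i => ⟨(hD i).1, (hD i).2.trans (hm T hT)⟩)
        · rintro θ ⟨h5, h6⟩
          exact ⟨hu T hT h5, h6⟩
        · refine (lat_triv R₀ (D := D) fun i => hT.trans (hD i).1).1.subset ?_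
          rintro θ ⟨-, h6, h7⟩
          refine ⟨h6, fun l => ?_⟩
          exact ((norm_le_pi_norm (cst θ) l).trans (hR₁ _ h7)).trans hR₀

end Pool.Agent.Results.MP_bbe012_lc.AlmostAllSupports
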