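import Pool.Agent.Lib.MP_bbe012_lc.XS.R8
import Pool.Agent.Lib.MP_bbe012_lc.XS.R9

/-!
# Polynomially many digits suffice for 100 percent of the parameters

The families are those of `GenericDomains`: `F k` (`k = 1, ..., μ`) is a family of domains `{x ∈ [-b, b]^m : 0 ≤ A_l(θ, x) ≤ B_l(θ, x)}` and denominators `D(θ, x)`
with rational parameters `θ = (θ_1, ..., θ_s)`, which at `θ = e` is the unit cube with denominator `1`; `S` is a compact set with non empty interior in the connected component of `e` of the set of the
nondegenerate parameters.

The proof. (1) Every value of a sum of products is, up to a small factor, a linear form `∑ c_i V_i(θ)` with integers `c_i` in finitely many fixed functions `V_i`, analytic on the component of `e`, with rational Taylor coefficients at `e`, and independent over the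
real polynomials. (2) The functions `V_i` are combinations of solutions of linear differential equations with coefficients in `ℚ(θ)`. So for polynomials `y_i` of degree at most `D` with integer coefficients, not all zero, the function `∑ y_i V_i` has near every point a Taylor coefficient
of order `≤ C (D + 1) ^ a` and of absolute value at least `exp (- C (D + 1) ^ a)` after division by its size, whatever the size of the coefficients of the `y_i` (multiplicity estimates, and lower bounds for the Taylor coefficients at a rational point, transported to the other points of `S` by analytic continuation). (3) The determinant method of Bombieri and Pila: in a box of size `T ^ (-2 + 1/M)` all the points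
`θ` of height at most `T` with a relation `|∑ c_i V_i(θ)| ≤ T ^ (- B L ^ p)`, `|c_i| ≤ T ^ L`, satisfy a common relation `∑ c_i P_i(θ) = 0` with integer polynomials `P_i` of degree and logarithmic height polynomial in `L`; the elimination of one function by this relation keeps the linear form small, and
induction on the number of functions bounds the number of such `θ` by a power of `L` times `T ^ (2 s - η)`. All constants are polynomial in `L`, so the estimate is useful for all `L ≤ T ^ k`.
-/

set_option autoImplicit false

open Pool.Agent.Lib.MP_bbe012_lc.PG Pool.Agent.Lib.MP_bbe012_lc.PH Pool.Agent.Lib.MP_bbe012_lc.XS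

/-- **Polynomially many digits suffice for 100% of the parameters.** The families are those of `GenericDomains`. For every `A` there are `k, η > 0` and `p` such that for every compact set `S` with non empty interior in the region there are `B` and `C` such that
for all `T ≥ 1` the following holds for all the rational points `θ` of `S` of height at most `T` with at most a proportion `C T ^ (-η)` of exceptions: for all `L` with `1 ≤ L ≤ T ^ k`, every sum `E` of at
most `T ^ (L A)` products of at most `A` integrals of the families at `θ`, with numerators of degree at most `A` and with
coefficients of size at most `T ^ (L A)` (`InClassH F b A (T ^ L) θ E`), is zero or at least `T ^ (-B L ^ p)` in absolute value. -/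
theorem Pool.Agent.Results.MP_bbe012_lc.DigitsSuffice.result {s μ b : ℕ} (hs : 0 < s) (hb : 2 ≤ b)
    {m : Fin μ → ℕ} (F : (k : Fin μ) → Typ s (m k)) (e : Fin s → ℚ) (he : ∀ k, (F k).Base e) (A : ℕ) :
    ∃ (k η : ℝ) (p : ℕ), 0 < k ∧ 0 < η ∧ ∀ S : Set (Fin s → ℝ), IsCompact S → S ⊆ Reg F b e → (interior S).Nonempty →
      ∃ (B : ℕ) (C : ℝ), ∀ T : ℕ, 1 ≤ T →
        ({θ ∈ PtsT S T | ∃ (L : ℕ) (E : ExH), 1 ≤ L ∧ (L : ℝ) ≤ (T : ℝ) ^ k ∧ InClassH F b A (T ^ L) θ E ∧
          exhVal E ≠ 0 ∧ |exhVal E| < ((T : ℝ) ^ (B * L ^ p))⁻¹}.ncard : ℝ) ≤
          C * (T : ℝ) ^ (-η) * ((PtsT S T).ncard : ℝ) :=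
  digits_of_pf hs hb F e he A fun hm _ π => pf_VPH hb F e he A hm π
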