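import Pool.Agent.Lib.MP_bbe012_lc.XS.R8
import Pool.Agent.Lib.MP_bbe012_lc.XS.R9

/-!
# Equality of periods is decidable for almost all domains and denominators, with input of exponential size

A sum of products of integrals of rational functions over semialgebraic sets is given by a list of lists of codes `(m, (b, ((P, D), L)))`; such
a code stands for the integral of `P / D` over the set of the `x ∈ [-b, b]^m` with `0 ≤ A(x) ≤ B(x)` for all `(A, B)` in the list `L`. There is one
algorithm (partial recursive function) such that

* whenever it halts, it reports correctly whether the value of the given sum of products is zero;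
* for all families `F_1, ..., F_μ`, where `F_k` consists of polynomials `A_l`, `B_l` (`l = 1, ..., m_k`) and `D` in `θ_1, ..., θ_s` and
  `x_1, ..., x_(m_k)` over `ℚ`, with a base point `e ∈ ℚ^s` at which `A_l = x_l`, `B_l = 1`, `D = 1` (the domain is the unit cube), and every
  `A`, there are `k > 0` and `η > 0` such that for every compact set `S` of parameters with non empty interior contained in the connected component of `e` in the set of the nondegenerate parameters
  there is `C` such that for all `T ≥ 1`, with the exception of a proportion of at most `C T ^ (-η)`, all rational `θ ∈ S` with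
  coordinates of height at most `T` have the following property: for all `L` with `1 ≤ L ≤ T ^ k`, the algorithm halts on all sums of at most `N ^ A` products of at most
  `A` integrals of `P / D(θ, x) ^ κ` over the domains of the families at `θ`, with `κ ≤ A`, `deg P ≤ A` and coefficients of `P` in `(1 / q) ℤ` of absolute value
  at most `N ^ A`, `q ≤ N ^ A`, where `N = T ^ L`. So the numbers in the input may have exponentially more digits than `θ`.

A parameter is nondegenerate if on the domain `{x ∈ [-b, b]^m : 0 ≤ A_l(θ, x) ≤ B_l(θ, x) for all l}` one has `|x_l| < b`, `B_l ≠ 0`, `D ≠ 0`, and the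
determinant of the matrix of the `B_i ∂_j A_i - A_i ∂_j B_i` does not vanish (the map `x ↦ A(θ, x) / B(θ, x)` is a local coordinate).

Method. (1) On the component of `e` the domain is the image of the unit cube under a map `u ↦ X(θ, u)` which is analytic in `θ` and `u`: the solution
of `A_l(θ, X) = u_l B_l(θ, X)`. So the integrals are analytic functions of `θ`, with rational Taylor coefficients at `e`. (2) A counting theorem: the integrals satisfy linear differential equations with coefficients in `ℚ(θ)` near a rational point (holonomic modules); by
multiplicity estimates and lower bounds for the Taylor coefficients, uniform over all linear forms with integral polynomial coefficients of given degree, the determinant method shows that at most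
`C T ^ (2 s - η)` rational points of `S` with coordinates of height at most `T` satisfy some relation `∑ c_i V_i(θ) = 0` with integers
`|c_i| ≤ T ^ L`, not all zero, `L ≤ T ^ k`. So for the other `θ` every relation between the values is a consequence of functional relations, which hold on the whole
region. (3) Along a polynomial path in the region from `e` to `θ` such a relation has a certificate: a differential equation, proved by exact forms
in the coordinates `u` (pulled back to polynomial identities in `x`), and initial coefficients; the soundness uses analytic continuation along
the path and certificates of positivity. Values different from zero are recognized by approximation.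
-/

set_option autoImplicit false

namespace Pool.Agent.Results.MP_bbe012_lc.GenericDomains

open Pool.Agent.Lib.MP_bbe012_lc Pool.Agent.Lib.MP_bbe012_lc.PP Pool.Agent.Lib.MP_bbe012_lc.PG Pool.Agent.Lib.MP_bbe012_lc.PH
open Pool.Agent.Lib.MP_bbe012_lc.XS

/-- **Theorem.** -/
theorem result :
    ∃ f : ExH →. Bool, Partrec f ∧
      (∀ (E : ExH) (b : Bool), b ∈ f E → (b = true ↔ exhVal E = 0)) ∧
      ∀ (s μ b : ℕ) (m : Fin μ → ℕ) (F : (k : Fin μ) → Typ s (m k)) (e : Fin s → ℚ), 0 < s → 2 ≤ b →
        (∀ k, (F k).Base e) → ∀ A : ℕ, ∃ k η : ℝ, 0 < k ∧ 0 < η ∧
        ∀ S : Set (Fin s → ℝ), IsCompact S → S ⊆ Reg F b e → (interior S).Nonempty →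
          ∃ C : ℝ, ∀ T : ℕ, 1 ≤ T →
            ({θ ∈ PtsT S T | ∃ (L : ℕ) (E : ExH), 1 ≤ L ∧ (L : ℝ) ≤ (T : ℝ) ^ k ∧ InClassH F b A (T ^ L) θ E ∧
              ¬ (f E).Dom}.ncard : ℝ) ≤ C * (T : ℝ) ^ (-η) * ((PtsT S T).ncard : ℝ) :=
  ⟨decideH, partrec_decideH, fun _ _ hb => decideH_sound hb,
    fun _ _ _ _ F e hs hb he A => halts_of_pf hs hb F e he A fun hm _ π => pf_VPH hb F e he A hm π⟩

end Pool.Agent.Results.MP_bbe012_lc.GenericDomains
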