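import Mathlib
import Pool.Agent.Lib.MP_bbe012_lc.CE.MainE
import Pool.Agent.Lib.MP_bbe012_lc.HC.PrimB
import Pool.Agent.Lib.MP_bbe012_lc.HC.Dir
import Pool.Agent.Lib.MP_bbe012_lc.HC.Dec
import Pool.Agent.Lib.MP_bbe012_lc.HC.Even

/-!
# Periods and fair coins with cubic polynomials on polydiscs

Let `U` be uniformly distributed in the polydisc `D^m`, `D` the open unit disc.

(1) For EVERY explicit integral `p = ∫ P / Q` of a rational function over a domain defined by finitely
many polynomial inequalities with rational coefficients there are ONE polynomial `f` in `2 m` variables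
with rational coefficients of total degree at most `3` and a nonzero rational number `b` such that
`f(U) > 0` has probability exactly `1 / 2 + b p`.

(2) The equality problem for Kontsevich-Zagier periods has a positive answer if and only if there is
an algorithm which decides, for `f` with rational coefficients of total degree at most `3`, whether
`f(U) > 0` has probability exactly `1 / 2`. The same is true for every larger class of polynomials,
also on products of intervals `(-1, 1)` and discs.

(3) It also has a positive answer if and only if there is an algorithm which decides, for a single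
polynomial `f` with rational coefficients in `n` variables, whether `f` is positive on exactly one
half of the cube `(-1, 1)^n`. Here the polynomials may be restricted to any class which contains all
`f` which are even in each variable and for which the set of the points of the open cube with
`f > 0` is convex (so that this set is an unconditional convex body).

The definitions used in the statement are in `Pool/Agent/Lib/MP_bbe012_lc/Codes.lean` (codes of
polynomials, `pcPoly`), `Pool/Agent/Lib/MP_bbe012_lc/Defs.lean` (explicit integrals, periods,
`pcEval`, `DecidableOn`, `EqualityOfPeriodsDecidable`), `Pool/Agent/Lib/MP_bbe012_lc/Bd.lean` (`cube`),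
`Pool/Agent/Lib/MP_bbe012_lc/HC/Codes.lean` (`posCube`) and
`Pool/Agent/Lib/MP_bbe012_lc/CD/Defs.lean` (`boxDisc`, `posBD`).

Idea of the proof of (1) and (2). The integral is a rational multiple of the average of a fraction
`P / Q` over a product of intervals and discs (every factor `π` of the reduction to one rational
function is removed by passing from a variable `t` on the line to the direction `y / x = t` of a
point of the disc). By a functional equation of Bernstein type, found by a search for a certificate,
this average is, up to rational numbers, the average of `G_+^K` for a polynomial `G`, where `K` is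
larger than twice the number of multiplications needed for `G`. A variable in an interval is
`2 |w|^2 - 1` with a variable `w` in the unit disc. A product of polynomials in `G` is
replaced by shorter ones by the exact formula for the average over the unit disc
`E (a - |Y v - c|^2)_+^k = a_+^(k + 1) / (Y^2 (k + 1))`, used twice, together with
`f_+^k = f^k + (-f)_+^k` for odd `k`; this lowers the exponent by two and adds a rational number, the
average of a power of a polynomial. When the exponent is `4` the polynomial `H` has degree at most
`3`, and with four more discs the probability of `H - a + M |v|^2 > 0` is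
`1 - (45 N / 4 - E H + E H_+^4 / (1632 N^3)) / M`, where
`a = N ((2 w_1 - c_1)^2 + (2 w_2)^2 + 17 (1 - |c|^2) + |u|^2)`; the choice of `M` gives one half.
-/

namespace Pool.Agent.Results.MP_bbe012_lc.PolydiscCoins

open MeasureTheory Set Pool.Agent.Lib.MP_bbe012_lc Pool.Agent.Lib.MP_bbe012_lc.HC
  Pool.Agent.Lib.MP_bbe012_lc.CV Pool.Agent.Lib.MP_bbe012_lc.CD Pool.Agent.Lib.MP_bbe012_lc.CE

theorem result :
    (∀ I : IntCode, Admissible I → ∃ (F : (ℕ × ℕ) × PCode) (b : ℚ), F.1.1 = 0 ∧
      (pcPoly (F.1.1 + 2 * F.1.2) F.2).totalDegree ≤ 3 ∧ b ≠ 0 ∧
        (volume (posBD F)).toReal =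
          (1 / 2 + b * value I) * (volume (boxDisc F.1.1 F.1.2)).toReal) ∧
    (∀ adm : (ℕ × ℕ) × PCode → Prop,
      (∀ F : (ℕ × ℕ) × PCode, F.1.1 = 0 → (pcPoly (F.1.1 + 2 * F.1.2) F.2).totalDegree ≤ 3 →
        adm F) →
      (EqualityOfPeriodsDecidable ↔
        DecidableOn adm (fun F => 2 * volume (posBD F) = volume (boxDisc F.1.1 F.1.2)))) ∧
    (∀ adm : ℕ × PCode → Prop,
      (∀ F : ℕ × PCode, Convex ℝ (posCube F) →
        (∀ x y : Fin F.1 → ℝ, (∀ i, |y i| = |x i|) → pcEval F.1 F.2 y = pcEval F.1 F.2 x) → adm F) →
      (EqualityOfPeriodsDecidable ↔
        DecidableOn adm (fun F => 2 * volume (posCube F) = 2 ^ F.1))) := by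
  refine ⟨exists_coinE, fun adm hadm => ⟨?_, ?_⟩, fun adm hadm => ⟨?_, ?_⟩⟩
  · exact transfer pairD primrec_pairD (fun F _ => (pairD_spec F).1)
      (fun F _ => (pairD_spec F).2)
  · exact transfer_search (fun Z => prepR (oneRat Z)) (primrec_prepR.comp primrec_oneRat) eSearch
      partrec_eSearch coinRE primrec_coinRE
      (fun Z hZ => by
        obtain ⟨c, -, h⟩ := oneRat_spec Z hZ
        exact dom_searchE h.one_le)
      (fun Z hZ c hc => by
        obtain ⟨c', -, h⟩ := oneRat_spec Z hZ
        exact hadm _ (coinRE_spec h.one_le h.int hc).1 (coinRE_spec h.one_le h.int hc).2.1)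
      (fun Z hZ c hc => by
        obtain ⟨c', -, h⟩ := oneRat_spec Z hZ
        exact (coinRE_spec h.one_le h.int hc).2.2.trans (oneRat_zero_iff Z hZ))
  · exact transfer coinPair primrec_coinPair (fun F _ => (coinPair_spec F).1)
      (fun F _ => (coinPair_spec F).2)
  · exact transfer_search (fun Z => prepR (oneRat Z)) (primrec_prepR.comp primrec_oneRat) hcSearch
      partrec_hcSearch coinOf primrec_coinOf
      (fun Z hZ => by
        obtain ⟨c, -, h⟩ := oneRat_spec Z hZ
        exact dom_search h.one_le)
      (fun Z hZ c hc => by
        obtain ⟨c', -, h⟩ := oneRat_spec Z hZ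
        exact hadm _ (coinOf_spec h.one_le h.int hc).1.1 fun x y hxy => fCode_even _ _ _ x y hxy)
      (fun Z hZ c hc => by
        obtain ⟨c', -, h⟩ := oneRat_spec Z hZ
        exact (coinOf_spec h.one_le h.int hc).2.trans (oneRat_zero_iff Z hZ))

end Pool.Agent.Results.MP_bbe012_lc.PolydiscCoins
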